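import Mathlib
import Pool.Agent.Helper292.SP.Lib

set_option autoImplicit false

open Cardinal Set Pool.Agent.Helper292.SP

namespace Pool.Agent.Results.MP_e34318_lc.ForcedAlephOmegaOne

variable {Q : Par}

/-- Preservation of all cardinals when `θ = c = ℵ₀` and `2 ^ ℵ₀ = ℵ₁`. -/
theorem preserved0 (hθ : Q.θ = ℵ₀) (hc : Q.c = ℵ₀) (h2 : (2 : Cardinal.{0}) ^ (ℵ₀ : Cardinal.{0}) = ℵ₁)
    {X Y : Type} (hXY : #X < #Y) (p : Cond Q) :
    p ∈ fnot (fex fun F : X → Y → Set (Cond Q) => fand (IsFun F) (Covers F fun _ => Set.univ)) := by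
  refine not_fex fun q hq F hF => ?_
  rcases lt_or_ge (#X) ℵ₀ with hX | hX
  · obtain ⟨r, hr, f, hf⟩ := decide_fun (hθ ▸ hX) q (fun r x y => r ∈ meets (F x y))
      (fun _ _ _ _ h hr => down_meets h hr) (IsFun_tot F q hF.1)
    have hns : ¬ Function.Surjective f := by
      intro hsurj
      exact absurd (Cardinal.mk_le_of_surjective hsurj) (not_le.2 hXY)
    obtain ⟨y, hy⟩ := not_forall.1 hns
    obtain ⟨r1, hr1, h1⟩ := mem_fimp.1 (hF.2 y) r hr (fun s _ => ⟨s, le_rfl, s, Set.mem_univ _, le_rfl⟩)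
    obtain ⟨r2, hr2, x, hx⟩ := mem_fex.1 h1 r1 le_rfl
    exact hy ⟨x, IsFun_fun F q hF.1 r2 (hr2.trans (hr1.trans hr)) x _ _ (down_meets (hf x) (hr2.trans hr1)) hx⟩
  · rcases lt_or_ge ((2 : Cardinal.{0}) ^ Q.c) (#Y) with hY | hY
    · refine no_onto_big hXY hY q (fun r x y => r ∈ meets (F x y)) (fun _ _ _ _ h hr => down_meets h hr)
        (IsFun_fun F q hF.1) ?_
      intro y r hr
      obtain ⟨r1, hr1, h1⟩ := mem_fimp.1 (hF.2 y) r hr (fun s _ => ⟨s, le_rfl, s, Set.mem_univ _, le_rfl⟩)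
      obtain ⟨r2, hr2, x, hx⟩ := mem_fex.1 h1 r1 le_rfl
      exact ⟨r2, hr2.trans hr1, x, hx⟩
    · rw [hc, h2, ← Cardinal.succ_aleph0] at hY
      have hX1 : #X ≤ ℵ₀ := Order.lt_succ_iff.1 (hXY.trans_le hY)
      have hYM : #Q.M ≤ #Y := by
        rw [Q.hM, hc]
        exact Order.succ_le_of_lt (hX.trans_lt hXY)
      obtain ⟨g⟩ := (Cardinal.le_def _ _).1 hYM
      obtain ⟨s, h, β, hβ⟩ := reg q (T := X) (by rw [hc]; exact hX1) (fun r x m => r ∈ meets (F x (g m)))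
        (fun _ _ _ _ h hr => down_meets h hr)
        (fun r hr x m m' h h' => g.injective (IsFun_fun F q hF.1 r hr x _ _ h h'))
      have hle : q.lower s h ≤ q := ⟨h, le_rfl⟩
      obtain ⟨r1, hr1, h1⟩ := mem_fimp.1 (hF.2 (g β)) (q.lower s h) hle
        (fun s _ => ⟨s, le_rfl, s, Set.mem_univ _, le_rfl⟩)
      obtain ⟨r2, hr2, x, hx⟩ := mem_fex.1 h1 r1 le_rfl
      exact absurd (hβ r2 (hr2.trans hr1) x β hx) (lt_irrefl β)

theorem pow_fin (c : Cardinal.{0}) (hc : ℵ₀ ≤ c) : ∀ σ < (ℵ₀ : Cardinal.{0}), c ^ σ ≤ c := by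
  intro σ hσ
  obtain ⟨n, rfl⟩ := Cardinal.lt_aleph0.1 hσ
  exact Cardinal.power_nat_le hc

theorem cof_aleph_omega_one :
    (Cardinal.aleph (ℵ₁ : Cardinal.{0}).ord).ord.cof = Order.succ (ℵ₀ : Cardinal.{0}) ∧
    (ℵ₁ : Cardinal.{0}) < Cardinal.aleph (ℵ₁ : Cardinal.{0}).ord := by
  have hlim : Order.IsSuccLimit (ℵ₁ : Cardinal.{0}).ord :=
    Cardinal.isSuccLimit_ord (Cardinal.aleph0_le_aleph _)
  constructor
  · have h1 := Ordinal.cof_map_of_isNormal Ordinal.isNormal_omega hlim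
    rw [Cardinal.ord_aleph, h1, ← Cardinal.succ_aleph0]
    exact (Cardinal.isRegular_succ le_rfl).cof_ord
  · rw [Cardinal.aleph_lt_aleph, Cardinal.ord_aleph]
    have h3 : (1 : Ordinal) < Ordinal.omega0 := Ordinal.one_lt_omega0
    exact lt_of_lt_of_le h3 (Ordinal.omega0_le_omega _)

/-- (1) If `κ` is a cardinal whose cofinality is a successor cardinal `c⁺` with `2 ^ c < κ`, there is a forcing notion
`P` such that in every extension by `P`: `κ` is a cardinal, `c⁺` is a regular cardinal (and `cf κ = c⁺`), and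
`κ → (κ, ω + 1)²` fails. (2) If `2 ^ ℵ₀ = ℵ₁` there is a forcing notion `P` preserving all cardinals such that in every
extension by `P` the relation `ℵ_{ω₁} → (ℵ_{ω₁}, ω + 1)²` fails. -/
theorem result :
    (∀ c κ : Cardinal.{0}, ℵ₀ ≤ c → (2 : Cardinal.{0}) ^ c < κ → κ.ord.cof = Order.succ c →
      ∃ (K M P : Type) (_ : LinearOrder K) (_ : WellFoundedLT K) (_ : LinearOrder M) (_ : WellFoundedLT M)
        (f : M → K) (_ : Preorder P),
        Ordinal.type (α := K) (· < ·) = κ.ord ∧ Ordinal.type (α := M) (· < ·) = (Order.succ c).ord ∧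
        StrictMono f ∧ (∀ y, ∃ x, y ≤ f x) ∧ Nonempty P ∧
        ∀ p : P, p ∈ IsCard P K ∧ p ∈ IsCard P M ∧ p ∈ IsReg P M ∧ p ∈ fnot (ArrowT P K (WithTop ℕ))) ∧
    ((2 : Cardinal.{0}) ^ (ℵ₀ : Cardinal.{0}) = ℵ₁ →
      ∃ (K P : Type) (_ : LinearOrder K) (_ : WellFoundedLT K) (_ : Preorder P),
        Ordinal.type (α := K) (· < ·) = (Cardinal.aleph (ℵ₁ : Cardinal.{0}).ord).ord ∧ Nonempty P ∧ ∀ p : P,
        (∀ X Y : Type, #X < #Y →
          p ∈ fnot (fex fun F : X → Y → Set P => fand (IsFun F) (Covers F fun _ => Set.univ))) ∧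
        p ∈ fnot (ArrowT P K (WithTop ℕ))) := by
  constructor
  · intro c κ hc hκ hcof
    obtain ⟨Q, oK, wK, f, hQθ, hQc, hQK, hmono, hA, hI, hseg, hf, hcofinal, htK, htM⟩ :=
      exists_par ℵ₀ c κ le_rfl Cardinal.isRegular_aleph0 hc (pow_fin c hc) hκ hcof
    exact ⟨Q.K, Q.M, Cond Q, oK, wK, inferInstance, inferInstance, f, inferInstance, htK, htM, hf, hcofinal,
      cond_nonempty Q, fun p => ⟨isCard_K hI p, isCard_M p, isReg_M p, not_arrowT hA hmono p⟩⟩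
  · intro hCH
    obtain ⟨hcof, hlt⟩ := cof_aleph_omega_one
    obtain ⟨Q, oK, wK, f, hQθ, hQc, hQK, hmono, hA, hI, hseg, hf, hcofinal, htype, -⟩ :=
      exists_par ℵ₀ ℵ₀ _ le_rfl Cardinal.isRegular_aleph0 le_rfl (pow_fin ℵ₀ le_rfl) (hCH ▸ hlt) hcof
    exact ⟨Q.K, Cond Q, oK, wK, inferInstance, htype, cond_nonempty Q, fun p => ⟨fun X Y hXY =>
      preserved0 hQθ hQc hCH hXY p, not_arrowT hA hmono p⟩⟩

end Pool.Agent.Results.MP_e34318_lc.ForcedAlephOmegaOne
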